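import Pool.Agent.H55.FFM.TP

/-!
# Board ffm_modules, row NOE: Noether normalization of a curve
-/

set_option autoImplicit false

open Pool.Agent.H55.FFM

namespace Pool.Agent.H11.FFM

open MvPolynomial

open scoped IntermediateField.algebraAdjoinAdjoin in
/-- a curve is a finite cover of the line -/
theorem noether1 {κ C : Type} [Field κ] [Field C] [Algebra κ C]
    (hy : ∃ y : C, FiniteDimensional (IntermediateField.adjoin κ {y}) C) (R : Subalgebra κ C)
    (hR : R.FG) (hna : ∃ r : R, ¬ IsAlgebraic κ (r : C)) :
    ∃ h : Polynomial κ →ₐ[κ] R, Function.Injective h ∧ h.Finite := by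
  have hft : Algebra.FiniteType κ R := R.fg_iff_finiteType.1 hR
  obtain ⟨s, g, hg, hgf⟩ := exists_finite_inj_algHom_of_fg κ R
  have h3 : Algebra.trdeg κ C ≤ 1 := by
    obtain ⟨y, hy⟩ := hy
    have h1 : Algebra.IsAlgebraic (IntermediateField.adjoin κ {y}) C := inferInstance
    have h2 : Algebra.IsAlgebraic (Algebra.adjoin κ {y}) C :=
      (IsFractionRing.comap_isAlgebraic_iff (A := Algebra.adjoin κ {y})
        (K := IntermediateField.adjoin κ {y}) (C := C)).2 h1
    have h4 := Algebra.IsAlgebraic.trdeg_le_cardinalMk κ ({y} : Set C)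
    simpa using h4
  have h4 : AlgebraicIndependent κ (fun i : Fin s => (g (X i) : C)) := by
    have h5 : (aeval (fun i : Fin s => (g (X i) : C)) : MvPolynomial (Fin s) κ →ₐ[κ] C) =
        R.val.comp g := by
      refine MvPolynomial.algHom_ext fun i => ?_
      rw [aeval_X]
      rfl
    have h6 : Function.Injective
        (aeval (fun i : Fin s => (g (X i) : C)) : MvPolynomial (Fin s) κ →ₐ[κ] C) := by
      rw [h5]
      exact Subtype.val_injective.comp hg
    exact h6
  have h5 : s ≤ 1 := by
    have h6 := h4.cardinalMk_le_trdeg.trans h3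
    rw [Cardinal.mk_fin] at h6
    exact_mod_cast h6
  rcases Nat.lt_or_ge s 1 with hs | hs
  · obtain rfl : s = 0 := by omega
    exfalso
    obtain ⟨r, hr⟩ := hna
    apply hr
    have h6 : (algebraMap κ (MvPolynomial (Fin 0) κ)).IsIntegral := by
      refine RingHom.isIntegral_of_surjective _ fun p => ?_
      exact ⟨coeff 0 p, by
        rw [MvPolynomial.algebraMap_eq]
        exact (eq_C_of_isEmpty p).symm⟩
    have h7 : (g : MvPolynomial (Fin 0) κ →+* R).IsIntegral := hgf.to_isIntegral
    have h8 := RingHom.IsIntegral.trans _ _ h6 h7 r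
    have h9 : (g : MvPolynomial (Fin 0) κ →+* R).comp (algebraMap κ (MvPolynomial (Fin 0) κ)) =
        algebraMap κ R := g.comp_algebraMap
    rw [h9] at h8
    have h10 : IsIntegral κ (r : C) := IsIntegral.map R.val (h8 : IsIntegral κ r)
    exact h10.isAlgebraic
  · obtain rfl : s = 1 := by omega
    refine ⟨g.comp ((MvPolynomial.uniqueAlgEquiv κ (Fin 1)).symm :
      Polynomial κ →ₐ[κ] MvPolynomial (Fin 1) κ), ?_, ?_⟩
    · exact hg.comp (MvPolynomial.uniqueAlgEquiv κ (Fin 1)).symm.injective
    · exact AlgHom.Finite.comp hgf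
        (AlgHom.Finite.of_surjective _ (MvPolynomial.uniqueAlgEquiv κ (Fin 1)).symm.surjective)

theorem adjoin_top {k F : Type} [Field k] [Field F] [Algebra k F] (K : IntermediateField k F)
    (S : Set F) (h : IntermediateField.adjoin k S = ⊤) : IntermediateField.adjoin K S = ⊤ := by
  rw [eq_top_iff]
  intro x _
  have h6 : IntermediateField.adjoin k S ≤
      (IntermediateField.adjoin K S).restrictScalars k :=
    IntermediateField.adjoin_le_iff.mpr fun s hs =>
      (IntermediateField.mem_restrictScalars k).mpr (IntermediateField.subset_adjoin K S hs)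
  have h7 : x ∈ (IntermediateField.adjoin K S).restrictScalars k :=
    h6 (h ▸ IntermediateField.mem_top)
  exact (IntermediateField.mem_restrictScalars k).mp h7

theorem pf_NOE : T_NOE := by
  intro k F _ _ _ _ _ R hR
  have hna : ∃ r : R, ¬ IsAlgebraic k (r : F) := by
    by_contra hcon
    push Not at hcon
    obtain ⟨y, hy⟩ := hR.tra
    have h1 : Algebra.IsAlgebraic k (IntermediateField.adjoin k (R : Set F)) :=
      IntermediateField.isAlgebraic_adjoin fun x hx => (hcon ⟨x, hx⟩).isIntegral
    have h2 : y ∈ IntermediateField.adjoin k (R : Set F) := by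
      rw [hR.top]
      exact IntermediateField.mem_top
    have h3 := h1.isAlgebraic (⟨y, h2⟩ : IntermediateField.adjoin k (R : Set F))
    exact hy ((IntermediateField.isAlgebraic_iff.mp h3))
  obtain ⟨h, hinj, hfin⟩ := noether1 hR.fin R hR.fg hna
  obtain ⟨l, hl⟩ : ∃ l : R, l = h Polynomial.X := ⟨_, rfl⟩
  have e1 : (Polynomial.aeval (l : F) : Polynomial k →ₐ[k] F) = R.val.comp h := by
    refine Polynomial.algHom_ext ?_
    rw [Polynomial.aeval_X, hl]
    rfl
  have htr : Transcendental k (l : F) := by
    rw [transcendental_iff_injective, e1]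
    exact Subtype.val_injective.comp hinj
  have hint : ∀ r ∈ R, (Polynomial.aeval (l : F) : Polynomial k →ₐ[k] F).toRingHom.IsIntegralElem
      r := by
    intro r hr
    obtain ⟨p, hp, hp0⟩ := hfin.to_isIntegral ⟨r, hr⟩
    refine ⟨p, hp, ?_⟩
    have h2 := congrArg R.val hp0
    rw [map_zero] at h2
    have h3 : (Polynomial.aeval (l : F) : Polynomial k →ₐ[k] F).toRingHom =
        (R.val : R →+* F).comp (h : Polynomial k →+* R) := by
      rw [e1]
      rfl
    rw [h3]
    have h4 := Polynomial.hom_eval₂ p (h : Polynomial k →+* R) (R.val : R →+* F) ⟨r, hr⟩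
    exact h4.symm.trans h2
  refine ⟨l, l.2, htr, ?_, hint⟩
  obtain ⟨S, hS⟩ := hR.fg
  have hSR : ∀ x ∈ S, x ∈ R := fun x hx => by
    rw [← hS]
    exact Algebra.subset_adjoin hx
  have hl2 : (l : F) ∈ IntermediateField.adjoin k {(l : F)} :=
    IntermediateField.mem_adjoin_simple_self k _
  have hSi : ∀ x ∈ (S : Set F), IsIntegral (IntermediateField.adjoin k {(l : F)}) x := by
    intro x hx
    obtain ⟨p, hp, hp0⟩ := hint x (hSR x hx)
    let φ : Polynomial k →+* IntermediateField.adjoin k {(l : F)} :=
      (Polynomial.aeval (⟨l, hl2⟩ : IntermediateField.adjoin k {(l : F)}) :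
        Polynomial k →ₐ[k] _).toRingHom
    have h4 : (algebraMap (IntermediateField.adjoin k {(l : F)}) F).comp φ =
        (Polynomial.aeval (l : F) : Polynomial k →ₐ[k] F).toRingHom := by
      have h5 : ((IntermediateField.adjoin k {(l : F)}).val.comp (Polynomial.aeval
          (⟨l, hl2⟩ : IntermediateField.adjoin k {(l : F)}))) =
          (Polynomial.aeval (l : F) : Polynomial k →ₐ[k] F) := by
        refine Polynomial.algHom_ext ?_
        rw [AlgHom.comp_apply, Polynomial.aeval_X, Polynomial.aeval_X]
        rfl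
      rw [← h5]
      rfl
    refine ⟨p.map φ, hp.map φ, ?_⟩
    rw [Polynomial.eval₂_map, h4]
    exact hp0
  have hfd : FiniteDimensional (IntermediateField.adjoin k {(l : F)})
      (IntermediateField.adjoin (IntermediateField.adjoin k {(l : F)}) (S : Set F)) :=
    IntermediateField.finiteDimensional_adjoin hSi
  have hS2 : IntermediateField.adjoin k (S : Set F) = ⊤ := by
    rw [eq_top_iff, ← hR.top, IntermediateField.adjoin_le_iff]
    intro r hr
    have h8 : r ∈ Algebra.adjoin k (S : Set F) := by
      rw [hS]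
      exact hr
    exact IntermediateField.algebra_adjoin_le_adjoin k (S : Set F) h8
  have htop : IntermediateField.adjoin (IntermediateField.adjoin k {(l : F)}) (S : Set F) =
      ⊤ := adjoin_top _ _ hS2
  rw [htop] at hfd
  exact LinearEquiv.finiteDimensional
    (IntermediateField.topEquiv (F := IntermediateField.adjoin k {(l : F)})
      (E := F)).toLinearEquiv

end Pool.Agent.H11.FFM
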